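import Pool.Agent.GLE.StmtsA
import Pool.Agent.GLE.StmtsC

/-!
# Squad GLE, row TST: energy of a block of test functions
-/

namespace Pool.Agent.GLE.H88

open Polynomial MeasureTheory Filter Topology

theorem grad_cont {φ : ℂ → ℝ} (h : ContDiff ℝ 1 φ) : Continuous (grad φ) := by
  have h1 : Continuous (fderiv ℝ φ) := h.continuous_fderiv one_ne_zero
  have h2 : Continuous fun z => fderiv ℝ φ z 1 := h1.clm_apply continuous_const
  have h3 : Continuous fun z => fderiv ℝ φ z Complex.I := h1.clm_apply continuous_const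
  have h4 : grad φ = fun z => ((fderiv ℝ φ z 1 : ℝ) : ℂ) +
      ((fderiv ℝ φ z Complex.I : ℝ) : ℂ) * Complex.I := by
    funext z
    unfold grad
    apply Complex.ext <;> simp
  rw [h4]
  exact (Complex.continuous_ofReal.comp h2).add
    ((Complex.continuous_ofReal.comp h3).mul continuous_const)

theorem grad_supp {φ : ℂ → ℝ} (h : HasCompactSupport φ) : HasCompactSupport (grad φ) := by
  have h1 : HasCompactSupport (fderiv ℝ φ) := h.fderiv ℝ
  refine HasCompactSupport.intro h1 fun z hz => ?_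
  have h2 : fderiv ℝ φ z = 0 := image_eq_zero_of_notMem_tsupport hz
  unfold grad
  rw [h2]
  rfl

theorem tst (hHar : HarStmt) (hThe : TheStmt) (hAra : AraStmt) (hSep : SepStmt) : TstStmt := by
  obtain ⟨C, hC, hT⟩ := hThe
  refine ⟨C * (512 * Real.pi), by positivity, ?_⟩
  intro m I P K hm hK hP
  obtain ⟨t1, t2, -, -, t5, t6⟩ := hT m hm
  obtain ⟨-, -, -, -, -, -, -, s8, s9, s10, s11, -⟩ := hSep m hm
  have hgc : Continuous (grad (Th m)) := grad_cont t1
  have hgs : HasCompactSupport (grad (Th m)) := grad_supp t2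
  have hPc : ∀ k, Continuous fun z : ℂ => (aeval z (P k)).re := by
    intro k
    have : Continuous fun z : ℂ => aeval z (P k) := (P k).continuous_aeval
    exact Complex.continuous_re.comp this
  have hev : ∀ (k : ℕ) (z : ℂ), aeval z (P k) = ((P k).map (algebraMap ℝ ℂ)).eval z := by
    intro k z
    rw [eval_map_algebraMap]
  have h1 : ∀ k ∈ I, ∫ z, ‖grad (fun z => (aeval z (P k)).re * Th m z) z‖ ^ 2 =
      ∫ z, (aeval z (P k)).re ^ 2 * ‖grad (Th m) z‖ ^ 2 := by
    intro k _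
    simp only [hev]
    exact hHar _ _ t1 t2
  have hfc : ∀ k, Continuous fun z : ℂ => (aeval z (P k)).re ^ 2 * ‖grad (Th m) z‖ ^ 2 :=
    fun k => ((hPc k).pow 2).mul (hgc.norm.pow 2)
  have hfi : ∀ k, Integrable fun z : ℂ => (aeval z (P k)).re ^ 2 * ‖grad (Th m) z‖ ^ 2 := by
    intro k
    refine (hfc k).integrable_of_hasCompactSupport ?_
    refine HasCompactSupport.intro hgs fun z hz => ?_
    have h2 : grad (Th m) z = 0 := image_eq_zero_of_notMem_tsupport hz
    rw [h2]
    simp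
  rw [Finset.sum_congr rfl h1, ← integral_finsetSum _ fun k _ => hfi k]
  obtain ⟨S, hS⟩ : ∃ S : Set ℂ, S = {z : ℂ | ‖av m z‖ ≤ 16} := ⟨_, rfl⟩
  have hS' : S = {z : ℂ | ‖(av m (X : ℂ[X])).eval z‖ ≤ 16} := by
    rw [hS]
    simp only [s10]
  obtain ⟨a1, a2⟩ := hAra _ s8
  rw [← hS'] at a1 a2
  have hSc : IsCompact S := a1 (by rw [s9]; exact Nat.one_le_two_pow)
  have h3 : ∫ z, ∑ k ∈ I, (aeval z (P k)).re ^ 2 * ‖grad (Th m) z‖ ^ 2 =
      ∫ z in S, ∑ k ∈ I, (aeval z (P k)).re ^ 2 * ‖grad (Th m) z‖ ^ 2 := by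
    symm
    apply setIntegral_eq_integral_of_forall_compl_eq_zero
    intro z hz
    rw [hS] at hz
    have h4 : grad (Th m) z = 0 := t6 z (not_le.1 hz)
    apply Finset.sum_eq_zero
    intro k _
    rw [h4]
    simp
  have hdc : Continuous fun z : ℂ => ‖(derivative (av m (X : ℂ[X]))).eval z‖ ^ 2 :=
    ((derivative (av m (X : ℂ[X]))).continuous.norm).pow 2
  have h5 : ∫ z in S, ∑ k ∈ I, (aeval z (P k)).re ^ 2 * ‖grad (Th m) z‖ ^ 2 ≤
      ∫ z in S, (K * C) * ‖(derivative (av m (X : ℂ[X]))).eval z‖ ^ 2 := by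
    apply setIntegral_mono_on
    · exact (continuous_finsetSum _ fun k _ => hfc k).continuousOn.integrableOn_compact hSc
    · exact (continuous_const.mul hdc).continuousOn.integrableOn_compact hSc
    · exact hSc.isClosed.measurableSet
    · intro z hz
      rw [hS] at hz
      rw [← Finset.sum_mul]
      have h6 : ∑ k ∈ I, (aeval z (P k)).re ^ 2 ≤ K := by
        refine le_trans (Finset.sum_le_sum fun k _ => ?_) (hP z hz)
        rw [← sq_abs]
        exact pow_le_pow_left₀ (abs_nonneg _) (Complex.abs_re_le_norm _) 2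
      have h7 := t5 z
      rw [s11]
      calc (∑ k ∈ I, (aeval z (P k)).re ^ 2) * ‖grad (Th m) z‖ ^ 2
          ≤ K * (C * ‖deriv (av m) z‖ ^ 2) :=
            mul_le_mul h6 h7 (sq_nonneg _) hK
        _ = _ := by ring
  rw [h3]
  refine le_trans h5 ?_
  rw [integral_const_mul]
  have h8 : ((2 : ℝ) ^ (m - 1)) ≤ 2 ^ m :=
    pow_le_pow_right₀ (by norm_num) (Nat.sub_le m 1)
  rw [s9] at a2
  push_cast at a2
  have h9 : ∫ z in S, ‖(derivative (av m (X : ℂ[X]))).eval z‖ ^ 2 ≤ 512 * Real.pi * 2 ^ m :=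
    le_trans a2 (mul_le_mul_of_nonneg_left h8 (by positivity))
  calc K * C * ∫ z in S, ‖(derivative (av m (X : ℂ[X]))).eval z‖ ^ 2
      ≤ K * C * (512 * Real.pi * 2 ^ m) := mul_le_mul_of_nonneg_left h9 (by positivity)
    _ = _ := by ring

end Pool.Agent.GLE.H88
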